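import Pool.Agent.H17.WT.Shape

/-!
# MP_901665_lc: bounded ladders for words of bounded power size
-/

namespace H17WT

open Finset

namespace Sh

variable {n : ℕ}

/-- the size of a shape -/
def size : Sh n → ℕ
  | .letter _ => 1
  | .app s t => size s + size t
  | .pow s => size s + 1

lemma size_pos (τ : Sh n) : 0 < size τ := by
  induction τ with
  | letter a => simp [size]
  | app s t hs ht => simp only [size]; omega
  | pow s hs => simp only [size]; omega

lemma finite_size (s : ℕ) : {τ : Sh n | size τ ≤ s}.Finite := by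
  induction s with
  | zero =>
    have : {τ : Sh n | size τ ≤ 0} = ∅ := by
      ext τ
      have := size_pos τ
      constructor
      · intro h
        have h' : size τ ≤ 0 := h
        omega
      · intro h; exact absurd h (by simp)
    rw [this]; exact Set.finite_empty
  | succ s ih =>
    refine ((Set.finite_range (Sh.letter (n := n))).union
      ((Set.Finite.image2 Sh.app ih ih).union (ih.image Sh.pow))).subset ?_
    intro τ hτ
    have hτ' : size τ ≤ s + 1 := hτ
    cases τ with
    | letter a => exact Or.inl ⟨a, rfl⟩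
    | app σ τ =>
      refine Or.inr (Or.inl ⟨σ, ?_, τ, ?_, rfl⟩)
      · have := size_pos τ
        simp only [size] at hτ'
        show size σ ≤ s
        omega
      · have := size_pos σ
        simp only [size] at hτ'
        show size τ ≤ s
        omega
    | pow σ =>
      refine Or.inr (Or.inr ⟨σ, ?_, rfl⟩)
      simp only [size] at hτ'
      show size σ ≤ s
      omega

end Sh

/-- pairs of morphisms from the free monoid over `Fin n` to the free monoid over the naturals -/
abbrev Pr (n : ℕ) : Type := (Fin n → List ℕ) × (Fin n → List ℕ)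

/-- the pair agrees on the word -/
def Agr {n : ℕ} (y : List (Fin n)) (w : Pr n) : Prop := y.flatMap w.1 = y.flatMap w.2

lemma Ex_nonempty {n : ℕ} (τ : Sh n) : Nonempty (Ex τ) := by
  induction τ with
  | letter a => exact ⟨()⟩
  | app s t hs ht => exact ⟨(hs.some, ht.some)⟩
  | pow s hs => exact ⟨(hs.some, (0 : ℕ))⟩

lemma bound_shape {n : ℕ} (τ : Sh n) (Z Z' : Finset (Fin n)) :
    ∃ N : ℕ, ∀ (J : Finset ℕ) (x : ℕ → Ex τ) (w : ℕ → Pr n),
      (∀ j ∈ J, (∀ a, (w j).1 a = [] ↔ a ∈ Z) ∧ (∀ a, (w j).2 a = [] ↔ a ∈ Z')) →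
      Lad (fun x w => Agr (val τ x) w) J x w → J.card ≤ N := by
  classical
  let Q : Pr n → Prop := fun w => (∀ a, w.1 a = [] ↔ a ∈ Z) ∧ (∀ a, w.2 a = [] ↔ a ∈ Z')
  let q : Pr n → (Fin n ⊕ Fin n) → ℤ := fun w =>
    Sum.elim (fun a => ((w.1 a).length : ℤ)) (fun a => ((w.2 a).length : ℤ))
  obtain ⟨N1, D1, hN1, hD1, h1⟩ := frac (Q := Q) (q := q) (φ := fun w : Pr n => w.1)
    (j := Sum.inl) (Z := Z) (fun w a _ => rfl) (fun w hw => hw.1) τ
  obtain ⟨N2, D2, hN2, hD2, h2⟩ := frac (Q := Q) (q := q) (φ := fun w : Pr n => w.2)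
    (j := Sum.inr) (Z := Z') (fun w a _ => rfl) (fun w hw => hw.2) τ
  have hF : ES Q q (fun x w => N1 x w * D2 x w - N2 x w * D1 x w) :=
    (hN1.mul hD2).sub (hN2.mul hD1)
  have hiff : ∀ x w, Q w → (N1 x w * D2 x w - N2 x w * D1 x w = 0 ↔ Agr (val τ x) w) := by
    intro x w hw
    obtain ⟨h1a, h1b⟩ := h1 x w hw
    obtain ⟨h2a, h2b⟩ := h2 x w hw
    rw [← h1b, ← h2b]
    constructor
    · intro h
      have h3 : (enc ((val τ x).flatMap w.1) - enc ((val τ x).flatMap w.2)) *
          (D1 x w * D2 x w) = 0 := by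
        linear_combination h
      rcases mul_eq_zero.mp h3 with h4 | h4
      · exact enc_inj (sub_eq_zero.mp h4)
      · exact absurd h4 (mul_ne_zero h1a h2a)
    · intro h
      have h3 : (val τ x).flatMap w.1 = (val τ x).flatMap w.2 := h
      rw [h3]; ring
  obtain ⟨N, hN⟩ := ladder_ES hF
  refine ⟨N, fun J x w hQ hL => hN J x w hQ ⟨?_, ?_⟩⟩
  · intro i hi j hj hij
    exact (hiff _ _ (hQ j hj)).mpr (hL.1 i hi j hj hij)
  · intro j hj hcon
    exact hL.2 j hj ((hiff _ _ (hQ j hj)).mp hcon)

/-- ladders of words which are values of shapes of bounded size are bounded -/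
theorem bound_all (n s : ℕ) : ∃ N : ℕ, ∀ (J : Finset ℕ) (y : ℕ → List (Fin n)) (w : ℕ → Pr n),
    (∀ j ∈ J, y j = [] ∨ ∃ τ : Sh n, τ.size ≤ s ∧ ∃ x : Ex τ, val τ x = y j) →
    Lad Agr J y w → J.card ≤ N := by
  classical
  choose N hN using (fun (m : Sh n × Finset (Fin n) × Finset (Fin n)) =>
    bound_shape m.1 m.2.1 m.2.2)
  let S : Finset (Sh n) := (Sh.finite_size (n := n) s).toFinset
  let M : Finset (Sh n × Finset (Fin n) × Finset (Fin n)) := S ×ˢ Finset.univ
  refine ⟨∑ m ∈ M, N m, fun J y w hy hL => ?_⟩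
  let P : Sh n × Finset (Fin n) × Finset (Fin n) → ℕ → Prop := fun m j =>
    (∃ x : Ex m.1, val m.1 x = y j) ∧ (∀ a, (w j).1 a = [] ↔ a ∈ m.2.1) ∧
      (∀ a, (w j).2 a = [] ↔ a ∈ m.2.2)
  have hsub : J ⊆ M.biUnion (fun m => J.filter (P m)) := by
    intro j hj
    rcases hy j hj with h0 | ⟨τ, hτ, x, hx⟩
    · exact absurd (by simp [Agr, h0]) (hL.2 j hj)
    · rw [Finset.mem_biUnion]
      refine ⟨(τ, Finset.univ.filter (fun a => (w j).1 a = []),
        Finset.univ.filter (fun a => (w j).2 a = [])), ?_, ?_⟩
      · simp only [M, S, Finset.mem_product, Set.Finite.mem_toFinset, Finset.mem_univ, and_true]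
        exact hτ
      · refine Finset.mem_filter.mpr ⟨hj, ⟨x, hx⟩, ?_, ?_⟩
        · intro a; simp
        · intro a; simp
  refine (Finset.card_le_card hsub).trans ((Finset.card_biUnion_le).trans
    (Finset.sum_le_sum fun m _ => ?_))
  haveI := Ex_nonempty m.1
  refine hN m (J.filter (P m)) (fun j => Classical.epsilon (fun x : Ex m.1 => val m.1 x = y j)) w
    (fun j hj => (Finset.mem_filter.mp hj).2.2) ?_
  have hval : ∀ j ∈ J.filter (P m),
      val m.1 (Classical.epsilon (fun x : Ex m.1 => val m.1 x = y j)) = y j := fun j hj =>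
    Classical.epsilon_spec (Finset.mem_filter.mp hj).2.1
  refine ⟨?_, ?_⟩
  · intro i hi j hj hij
    simp only [hval i hi]
    exact hL.1 i (Finset.mem_filter.mp hi).1 j (Finset.mem_filter.mp hj).1 hij
  · intro j hj
    simp only [hval j hj]
    exact hL.2 j (Finset.mem_filter.mp hj).1

/-- a relation with bounded ladders has bounded test sets -/
theorem exists_test {X W : Type*} (R : X → W → Prop) (P : X → Prop) (N : ℕ)
    (hN : ∀ (J : Finset ℕ) (x : ℕ → X) (w : ℕ → W), (∀ j ∈ J, P (x j)) → Lad R J x w →
      J.card ≤ N) (L : Set X) (hL : ∀ x ∈ L, P x) :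
    ∃ F : Finset X, (F : Set X) ⊆ L ∧ F.card ≤ N ∧
      ∀ w, (∀ x ∈ F, R x w) → ∀ x ∈ L, R x w := by
  classical
  by_contra hcon
  push Not at hcon
  have hstep : ∀ t : ℕ, t ≤ N + 1 → t = 0 ∨ ∃ (x : ℕ → X) (w : ℕ → W),
      (∀ j ∈ Finset.range t, x j ∈ L) ∧ Lad R (Finset.range t) x w := by
    intro t
    induction t with
    | zero => intro _; exact Or.inl rfl
    | succ t ih =>
      intro ht
      right
      rcases ih (by omega) with rfl | ⟨x, w, hx, hl⟩
      · obtain ⟨w0, -, x0, hx0, hR⟩ := hcon ∅ (by simp) (by simp)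
        refine ⟨fun _ => x0, fun _ => w0, fun _ _ => hx0, ?_, ?_⟩
        · intro i hi j hj hij
          simp at hi hj; omega
        · intro j _; exact hR
      · obtain ⟨w0, hw0, x0, hx0, hR⟩ := hcon ((Finset.range t).image x)
          (by
            intro z hz
            obtain ⟨j, hj, rfl⟩ := Finset.mem_image.mp (Finset.mem_coe.mp hz)
            exact hx j hj)
          (Finset.card_image_le.trans (by simp; omega))
        refine ⟨Function.update x t x0, Function.update w t w0, ?_, ?_, ?_⟩
        · intro j hj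
          by_cases hjt : j = t
          · subst hjt; simpa using hx0
          · rw [Function.update_of_ne hjt]
            exact hx j (Finset.mem_range.mpr (by have := Finset.mem_range.mp hj; omega))
        · intro i hi j hj hij
          have hi' := Finset.mem_range.mp hi
          have hj' := Finset.mem_range.mp hj
          rw [Function.update_of_ne (show i ≠ t by omega)]
          by_cases hjt : j = t
          · subst hjt
            rw [Function.update_self]
            exact hw0 _ (Finset.mem_image_of_mem _ (Finset.mem_range.mpr hij))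
          · rw [Function.update_of_ne hjt]
            exact hl.1 i (Finset.mem_range.mpr (by omega)) j (Finset.mem_range.mpr (by omega)) hij
        · intro j hj
          have hj' := Finset.mem_range.mp hj
          by_cases hjt : j = t
          · subst hjt
            rw [Function.update_self, Function.update_self]
            exact hR
          · rw [Function.update_of_ne hjt, Function.update_of_ne hjt]
            exact hl.2 j (Finset.mem_range.mpr (by omega))
  rcases hstep (N + 1) le_rfl with h | ⟨x, w, hx, hl⟩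
  · omega
  · have := hN _ x w (fun j hj => hL _ (hx j hj)) hl
    simp at this

end H17WT
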