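import Mathlib

/-!
# MP_901665_lc: exponential sums over Laurent series vanish on few flats
-/

namespace H17WT

open Finset

/-- the field of Laurent series over the rationals -/
abbrev K : Type := HahnSeries ℤ ℚ

/-- the power `T ^ e` -/
noncomputable def T (e : ℤ) : K := HahnSeries.single e 1

lemma T_zero : T 0 = 1 := rfl

lemma T_add (a b : ℤ) : T (a + b) = T a * T b := by
  simp [T, HahnSeries.single_mul_single]

lemma T_ne (a : ℤ) : T a ≠ 0 := HahnSeries.single_ne_zero one_ne_zero

lemma T_order (a : ℤ) : (T a).order = a := HahnSeries.order_single one_ne_zero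

lemma T_inj {a b : ℤ} (h : T a = T b) : a = b := by
  rw [← T_order a, ← T_order b, h]

lemma order_mul_T {x : K} (hx : x ≠ 0) (e : ℤ) : (x * T e).order = x.order + e := by
  rw [HahnSeries.order_mul hx (T_ne e), T_order]

/-- the minimum order is attained twice in a vanishing sum of nonzero terms -/
lemma two_orders {s : ℕ} (f : Fin (s + 1) → K) (h0 : ∀ i, f i ≠ 0) (hs : ∑ i, f i = 0) :
    ∃ i j, i ≠ j ∧ (f i).order = (f j).order := by
  by_contra hcon
  push Not at hcon
  obtain ⟨i0, -, hi0⟩ := Finset.exists_min_image Finset.univ (fun i => (f i).order)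
    ⟨0, Finset.mem_univ _⟩
  have h1 : (∑ i, f i).coeff (f i0).order = (f i0).coeff (f i0).order := by
    rw [HahnSeries.coeff_sum]
    refine Finset.sum_eq_single i0 ?_ (by simp)
    intro j _ hj
    apply HahnSeries.coeff_eq_zero_of_lt_order
    exact lt_of_le_of_ne (hi0 j (Finset.mem_univ _)) (hcon i0 j hj.symm)
  rw [hs] at h1
  have h2 := (HahnSeries.coeff_order_eq_zero (x := f i0)).not.mpr (h0 i0)
  apply h2
  rw [← h1]
  rfl

variable {ι : Type} [Fintype ι]

/-- the affine subspace `{κ | ∑ l, b l * κ l = c}` -/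
def hyp (b : ι → ℤ) (c : ℤ) : AffineSubspace ℚ (ι → ℚ) where
  carrier := {κ | ∑ l, (b l : ℚ) * κ l = c}
  smul_vsub_vadd_mem' := by
    intro r p1 p2 p3 h1 h2 h3
    simp only [Set.mem_setOf_eq, vsub_eq_sub, vadd_eq_add, Pi.add_apply, Pi.smul_apply,
      Pi.sub_apply, smul_eq_mul] at *
    have : ∀ l, (b l : ℚ) * (r * (p1 l - p2 l) + p3 l)
        = r * ((b l : ℚ) * p1 l) - r * ((b l : ℚ) * p2 l) + (b l : ℚ) * p3 l := by
      intro l; ring
    simp only [this, Finset.sum_add_distrib, Finset.sum_sub_distrib, ← Finset.mul_sum]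
    rw [h1, h2, h3]; ring

lemma mem_hyp {b : ι → ℤ} {c : ℤ} {κ : ι → ℚ} : κ ∈ hyp b c ↔ ∑ l, (b l : ℚ) * κ l = c :=
  Iff.rfl

lemma mem_hyp_int {b : ι → ℤ} {c : ℤ} {k : ι → ℤ} :
    (fun l => (k l : ℚ)) ∈ hyp b c ↔ ∑ l, b l * k l = c := by
  rw [mem_hyp]
  constructor
  · intro h; exact_mod_cast h
  · intro h; exact_mod_cast h

open Classical in
/-- the zeros of an exponential sum with `s` terms form a union of boundedly many flats -/
theorem flats (s : ℕ) : ∃ C : ℕ, ∀ (α : Fin s → K) (a : Fin s → ι → ℤ),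
    ∃ V : Finset (AffineSubspace ℚ (ι → ℚ)), V.card ≤ C ∧ ∀ k : ι → ℤ,
      (∑ i, α i * T (∑ l, a i l * k l) = 0 ↔ ∃ U ∈ V, (fun l => (k l : ℚ)) ∈ U) := by
  induction s with
  | zero =>
    refine ⟨1, fun α a => ⟨{⊤}, by simp, fun k => ?_⟩⟩
    simp
  | succ s ih =>
    obtain ⟨C, hC⟩ := ih
    refine ⟨C + (s + 1) * s * C, fun α a => ?_⟩
    by_cases hz : ∃ i, α i = 0
    · obtain ⟨i, hi⟩ := hz
      obtain ⟨V, hV, hk⟩ := hC (fun l => α (i.succAbove l)) (fun l => a (i.succAbove l))
      refine ⟨V, hV.trans (Nat.le_add_right _ _), fun k => ?_⟩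
      rw [Fin.sum_univ_succAbove _ i, hi, zero_mul, zero_add]
      exact hk k
    · push Not at hz
      have key : ∀ (i : Fin (s + 1)) (l0 : Fin s), ∃ V : Finset (AffineSubspace ℚ (ι → ℚ)),
          V.card ≤ C ∧ ∀ k : ι → ℤ,
          (∑ l, (α (i.succAbove l) + if l = l0 then
              α i * T ((α (i.succAbove l0)).order - (α i).order) else 0) *
            T (∑ l', a (i.succAbove l) l' * k l') = 0 ↔ ∃ U ∈ V, (fun l => (k l : ℚ)) ∈ U) :=
        fun i l0 => hC _ _
      choose V hV hk using key
      let H : Fin (s + 1) → Fin s → AffineSubspace ℚ (ι → ℚ) := fun i l0 =>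
        hyp (fun l => a i l - a (i.succAbove l0) l) ((α (i.succAbove l0)).order - (α i).order)
      have merge : ∀ (i : Fin (s + 1)) (l0 : Fin s) (k : ι → ℤ),
          (fun l => (k l : ℚ)) ∈ H i l0 →
          ∑ j, α j * T (∑ l, a j l * k l) =
          ∑ l, (α (i.succAbove l) + if l = l0 then
              α i * T ((α (i.succAbove l0)).order - (α i).order) else 0) *
            T (∑ l', a (i.succAbove l) l' * k l') := by
        intro i l0 k hH
        have hH' := mem_hyp_int.mp hH
        simp only [add_mul, Finset.sum_add_distrib, ite_mul, zero_mul]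
        rw [Finset.sum_ite_eq' Finset.univ l0, if_pos (Finset.mem_univ _),
          Fin.sum_univ_succAbove _ i, add_comm, mul_assoc, ← T_add]
        congr 3
        have : ∑ l, a i l * k l - ∑ l, a (i.succAbove l0) l * k l
            = ∑ l, (a i l - a (i.succAbove l0) l) * k l := by
          rw [← Finset.sum_sub_distrib]
          exact Finset.sum_congr rfl fun l _ => by ring
        linarith
      refine ⟨(Finset.univ : Finset (Fin (s + 1) × Fin s)).biUnion
        (fun x => (V x.1 x.2).image (fun U => U ⊓ H x.1 x.2)), ?_, fun k => ?_⟩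
      · refine (Finset.card_biUnion_le).trans ?_
        refine (Finset.sum_le_card_nsmul _ _ C ?_).trans ?_
        · intro x _
          exact (Finset.card_image_le).trans (hV x.1 x.2)
        · simp
      · constructor
        · intro h
          obtain ⟨i, j, hij, hord⟩ := two_orders (fun i => α i * T (∑ l, a i l * k l))
            (fun i => mul_ne_zero (hz i) (T_ne _)) h
          simp only [order_mul_T (hz _)] at hord
          obtain ⟨l0, rfl⟩ := Fin.exists_succAbove_eq hij.symm
          have hH : (fun l => (k l : ℚ)) ∈ H i l0 := by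
            refine mem_hyp_int.mpr ?_
            have : ∑ l, a i l * k l - ∑ l, a (i.succAbove l0) l * k l
                = ∑ l, (a i l - a (i.succAbove l0) l) * k l := by
              rw [← Finset.sum_sub_distrib]
              exact Finset.sum_congr rfl fun l _ => by ring
            linarith
          rw [merge i l0 k hH] at h
          obtain ⟨U, hU, hkU⟩ := (hk i l0 k).mp h
          refine ⟨U ⊓ H i l0, ?_, ⟨hkU, hH⟩⟩
          rw [Finset.mem_biUnion]
          exact ⟨(i, l0), Finset.mem_univ _, Finset.mem_image_of_mem _ hU⟩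
        · rintro ⟨U, hU, hkU⟩
          rw [Finset.mem_biUnion] at hU
          obtain ⟨⟨i, l0⟩, -, hU⟩ := hU
          rw [Finset.mem_image] at hU
          obtain ⟨U', hU', rfl⟩ := hU
          obtain ⟨h1, h2⟩ := AffineSubspace.mem_inf_iff _ _ _ |>.mp hkU
          rw [merge i l0 k h2]
          exact (hk i l0 k).mpr ⟨U', hU', h1⟩

end H17WT
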