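import Pool.Agent.H17.WT.Flats

/-!
# MP_901665_lc: ladders
-/

namespace H17WT

open Finset

/-- `(x j, w j)`, `j ∈ J`, is a ladder of the relation `R`: `x i` and `w j` are related for `i < j`
and not related for `i = j` -/
def Lad {X W : Type*} (R : X → W → Prop) (J : Finset ℕ) (x : ℕ → X) (w : ℕ → W) : Prop :=
  (∀ i ∈ J, ∀ j ∈ J, i < j → R (x i) (w j)) ∧ ∀ j ∈ J, ¬ R (x j) (w j)

lemma Lad.mono {X W : Type*} {R : X → W → Prop} {J J' : Finset ℕ} {x : ℕ → X} {w : ℕ → W}
    (h : Lad R J x w) (hJ : J' ⊆ J) : Lad R J' x w :=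
  ⟨fun i hi j hj hij => h.1 i (hJ hi) j (hJ hj) hij, fun j hj => h.2 j (hJ hj)⟩

variable {ι : Type} [Fintype ι]

theorem ladder_flats (C d : ℕ) : ∀ (J : Finset ℕ) (p : ℕ → (ι → ℚ))
    (V : ℕ → Finset (AffineSubspace ℚ (ι → ℚ))), (∀ j ∈ J, (V j).card ≤ C) →
    Lad (fun (κ : ι → ℚ) (S : Finset (AffineSubspace ℚ (ι → ℚ))) => ∃ U ∈ S, κ ∈ U) J p V →
    ∀ A : AffineSubspace ℚ (ι → ℚ), Module.finrank ℚ A.direction ≤ d → (∀ j ∈ J, p j ∈ A) →
    J.card ≤ (C + 1) ^ d := by
  classical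
  induction d with
  | zero =>
    intro J p V hV hL A hA hp
    rcases J.eq_empty_or_nonempty with rfl | hne
    · simp
    set j := J.max' hne with hj
    have hjJ : j ∈ J := J.max'_mem hne
    have hE : J.erase j = ∅ := by
      by_contra hcon
      obtain ⟨i, hi⟩ := Finset.nonempty_iff_ne_empty.mpr hcon
      have hiJ := Finset.mem_of_mem_erase hi
      have hij : i < j := lt_of_le_of_ne (J.le_max' i hiJ) (Finset.ne_of_mem_erase hi)
      obtain ⟨U, hU, hpU⟩ := hL.1 i hiJ j hjJ hij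
      have hlt : U ⊓ A < A := by
        refine lt_of_le_of_ne inf_le_right ?_
        intro h
        have : p j ∈ U ⊓ A := by rw [h]; exact hp j hjJ
        exact hL.2 j hjJ ⟨U, hU, this.1⟩
      have := AffineSubspace.direction_lt_of_nonempty hlt ⟨p i, hpU, hp i hiJ⟩
      have := Submodule.finrank_lt_finrank_of_lt this
      omega
    have := Finset.card_erase_of_mem hjJ
    rw [hE, Finset.card_empty] at this
    simp; omega
  | succ d ih =>
    intro J p V hV hL A hA hp
    rcases J.eq_empty_or_nonempty with rfl | hne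
    · simp
    set j := J.max' hne with hj
    have hjJ : j ∈ J := J.max'_mem hne
    have hsub : J.erase j ⊆ (V j).biUnion (fun U => (J.erase j).filter (fun i => p i ∈ U)) := by
      intro i hi
      have hiJ := Finset.mem_of_mem_erase hi
      have hij : i < j := lt_of_le_of_ne (J.le_max' i hiJ) (Finset.ne_of_mem_erase hi)
      obtain ⟨U, hU, hpU⟩ := hL.1 i hiJ j hjJ hij
      rw [Finset.mem_biUnion]
      exact ⟨U, hU, Finset.mem_filter.mpr ⟨hi, hpU⟩⟩
    have hpiece : ∀ U ∈ V j, ((J.erase j).filter (fun i => p i ∈ U)).card ≤ (C + 1) ^ d := by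
      intro U hU
      rcases ((J.erase j).filter (fun i => p i ∈ U)).eq_empty_or_nonempty with h0 | ⟨i, hi⟩
      · rw [h0]; simp
      have hi' := Finset.mem_filter.mp hi
      have hiJ := Finset.mem_of_mem_erase hi'.1
      have hlt : U ⊓ A < A := by
        refine lt_of_le_of_ne inf_le_right ?_
        intro h
        have : p j ∈ U ⊓ A := by rw [h]; exact hp j hjJ
        exact hL.2 j hjJ ⟨U, hU, this.1⟩
      have h1 := AffineSubspace.direction_lt_of_nonempty hlt ⟨p i, hi'.2, hp i hiJ⟩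
      have h2 := Submodule.finrank_lt_finrank_of_lt h1
      have hss : (J.erase j).filter (fun i => p i ∈ U) ⊆ J :=
        (Finset.filter_subset _ _).trans (Finset.erase_subset _ _)
      refine ih _ p V (fun i hi => hV i (hss hi)) (hL.mono hss) (U ⊓ A) (by omega) ?_
      intro i hi
      exact ⟨(Finset.mem_filter.mp hi).2, hp i (hss hi)⟩
    have h3 : (J.erase j).card ≤ C * (C + 1) ^ d := by
      refine (Finset.card_le_card hsub).trans ((Finset.card_biUnion_le).trans ?_)
      refine (Finset.sum_le_card_nsmul _ _ _ hpiece).trans ?_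
      rw [smul_eq_mul]
      exact Nat.mul_le_mul_right _ (hV j hjJ)
    have h4 : J.card = (J.erase j).card + 1 := (Finset.card_erase_add_one hjJ).symm
    have h5 : 1 ≤ (C + 1) ^ d := Nat.one_le_pow _ _ (Nat.succ_pos _)
    calc J.card = (J.erase j).card + 1 := h4
      _ ≤ C * (C + 1) ^ d + (C + 1) ^ d := by omega
      _ = (C + 1) ^ (d + 1) := by ring

/-- exponential sums: functions of `x` and `w` of the form `∑ j, α j w * T ^ ⟨p j x, q w⟩` -/
def ES {X W : Type} (Q : W → Prop) (q : W → ι → ℤ) (F : X → W → K) : Prop :=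
  ∃ (J : Type) (_ : Fintype J) (α : J → W → K) (p : J → X → ι → ℤ), ∀ x w, Q w →
    F x w = ∑ j, α j w * T (∑ l, p j x l * q w l)

/-- ladders of the zero relation of an exponential sum are bounded -/
theorem ladder_ES {X W : Type} {Q : W → Prop} {q : W → ι → ℤ} {F : X → W → K} (h : ES Q q F) :
    ∃ N : ℕ, ∀ (J : Finset ℕ) (x : ℕ → X) (w : ℕ → W), (∀ j ∈ J, Q (w j)) →
      Lad (fun x w => F x w = 0) J x w → J.card ≤ N := by
  classical
  obtain ⟨J0, hJ0, α0, p0, h0⟩ := h
  obtain ⟨s, α, p, hF⟩ : ∃ (s : ℕ) (α : Fin s → W → K) (p : Fin s → X → ι → ℤ), ∀ x w, Q w →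
      F x w = ∑ j, α j w * T (∑ l, p j x l * q w l) := by
    refine ⟨Fintype.card J0, fun i => α0 ((Fintype.equivFin J0).symm i),
      fun i => p0 ((Fintype.equivFin J0).symm i), fun x w hw => ?_⟩
    rw [h0 x w hw]
    exact (Equiv.sum_comp (Fintype.equivFin J0).symm
      (fun j => α0 j w * T (∑ l, p0 j x l * q w l))).symm
  obtain ⟨C, hC⟩ := flats (ι := Fin s × ι) s
  have key : ∀ w : W, ∃ V : Finset (AffineSubspace ℚ (Fin s × ι → ℚ)), V.card ≤ C ∧
      ∀ k : Fin s × ι → ℤ, (∑ i, α i w * T (∑ l : Fin s × ι,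
        (if l.1 = i then q w l.2 else 0) * k l) = 0 ↔ ∃ U ∈ V, (fun l => (k l : ℚ)) ∈ U) :=
    fun w => hC (fun i => α i w) (fun i l => if l.1 = i then q w l.2 else 0)
  choose V hV hk using key
  have hiff : ∀ x w, Q w → (F x w = 0 ↔ ∃ U ∈ V w,
      (fun l : Fin s × ι => ((p l.1 x l.2 : ℤ) : ℚ)) ∈ U) := by
    intro x w hw
    rw [hF x w hw, ← hk w (fun l => p l.1 x l.2)]
    have : ∀ i : Fin s, ∑ l : Fin s × ι, (if l.1 = i then q w l.2 else 0) * p l.1 x l.2
        = ∑ l, p i x l * q w l := by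
      intro i
      rw [Fintype.sum_prod_type, Finset.sum_eq_single i]
      · simp [mul_comm]
      · intro b _ hb
        simp [hb]
      · simp
    simp only [this]
  refine ⟨(C + 1) ^ (Fintype.card (Fin s × ι)), fun J x w hQ hL => ?_⟩
  refine ladder_flats C _ J (fun j l => ((p l.1 (x j) l.2 : ℤ) : ℚ)) (fun j => V (w j))
    (fun j _ => hV _) ⟨?_, ?_⟩ ⊤ ?_ (fun j _ => AffineSubspace.mem_top ℚ _ _)
  · intro i hi j hj hij
    exact (hiff _ _ (hQ j hj)).mp (hL.1 i hi j hj hij)
  · intro j hj hcon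
    exact hL.2 j hj ((hiff _ _ (hQ j hj)).mpr hcon)
  · rw [AffineSubspace.direction_top, finrank_top]
    exact (Module.finrank_fintype_fun_eq_card ℚ).le

end H17WT
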