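import Pool.Agent.H17.WT.Ladder

/-!
# MP_901665_lc: exponential sums of power expressions
-/

namespace H17WT

open Finset

section closure

variable {ι : Type} [Fintype ι] {X Y W : Type} {Q : W → Prop} {q : W → ι → ℤ}

lemma ES.congr {F G : X → W → K} (h : ES Q q F) (hFG : ∀ x w, Q w → G x w = F x w) :
    ES Q q G := by
  obtain ⟨J, hJ, α, p, hF⟩ := h
  exact ⟨J, hJ, α, p, fun x w hw => (hFG x w hw).trans (hF x w hw)⟩

lemma ES.const (c : W → K) : ES Q q (fun (_ : X) w => c w) :=
  ⟨Unit, inferInstance, fun _ w => c w, fun _ _ _ => 0, by simp [T_zero]⟩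

lemma ES.mon (p : X → ι → ℤ) : ES Q q (fun x w => T (∑ l, p x l * q w l)) :=
  ⟨Unit, inferInstance, fun _ _ => 1, fun _ => p, by simp⟩

lemma ES.add {F G : X → W → K} (hF : ES Q q F) (hG : ES Q q G) :
    ES Q q (fun x w => F x w + G x w) := by
  obtain ⟨J1, hJ1, α1, p1, h1⟩ := hF
  obtain ⟨J2, hJ2, α2, p2, h2⟩ := hG
  refine ⟨J1 ⊕ J2, inferInstance, Sum.elim α1 α2, Sum.elim p1 p2, fun x w hw => ?_⟩
  show F x w + G x w = _
  rw [h1 x w hw, h2 x w hw, Fintype.sum_sum_type]
  rfl

lemma ES.mul {F G : X → W → K} (hF : ES Q q F) (hG : ES Q q G) :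
    ES Q q (fun x w => F x w * G x w) := by
  obtain ⟨J1, hJ1, α1, p1, h1⟩ := hF
  obtain ⟨J2, hJ2, α2, p2, h2⟩ := hG
  refine ⟨J1 × J2, inferInstance, fun j w => α1 j.1 w * α2 j.2 w,
    fun j x l => p1 j.1 x l + p2 j.2 x l, fun x w hw => ?_⟩
  simp only [h1 x w hw, h2 x w hw]
  rw [Fintype.sum_prod_type, Finset.sum_mul_sum]
  refine Finset.sum_congr rfl fun i _ => Finset.sum_congr rfl fun j _ => ?_
  simp only [add_mul, Finset.sum_add_distrib, T_add]
  ring

lemma ES.neg {F : X → W → K} (hF : ES Q q F) : ES Q q (fun x w => - F x w) := by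
  refine ((ES.const (X := X) (Q := Q) (q := q) (fun _ : W => (-1 : K))).mul hF).congr ?_
  intro x w _; ring

lemma ES.sub {F G : X → W → K} (hF : ES Q q F) (hG : ES Q q G) :
    ES Q q (fun x w => F x w - G x w) := by
  refine (hF.add hG.neg).congr ?_
  intro x w _; ring

lemma ES.comp {F : X → W → K} (hF : ES Q q F) (π : Y → X) :
    ES Q q (fun y w => F (π y) w) := by
  obtain ⟨J, hJ, α, p, h⟩ := hF
  exact ⟨J, hJ, α, fun j y => p j (π y), fun y w hw => h _ w hw⟩

end closure

section encoding

/-- the power series of a word -/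
noncomputable def ePS : List ℕ → PowerSeries ℚ
  | [] => 0
  | c :: v => PowerSeries.C ((c : ℚ) + 1) + PowerSeries.X * ePS v

lemma ePS_inj : ∀ u v : List ℕ, ePS u = ePS v → u = v
  | [], [], _ => rfl
  | [], c :: v, h => by
    exfalso
    have h1 := congrArg PowerSeries.constantCoeff h
    simp only [ePS, map_zero, map_add, map_mul, PowerSeries.constantCoeff_C,
      PowerSeries.constantCoeff_X, zero_mul, add_zero] at h1
    have : (0 : ℚ) ≤ c := Nat.cast_nonneg c
    linarith
  | c :: v, [], h => by
    exfalso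
    have h1 := congrArg PowerSeries.constantCoeff h
    simp only [ePS, map_zero, map_add, map_mul, PowerSeries.constantCoeff_C,
      PowerSeries.constantCoeff_X, zero_mul, add_zero] at h1
    have : (0 : ℚ) ≤ c := Nat.cast_nonneg c
    linarith
  | c :: v, c' :: v', h => by
    have h1 := congrArg PowerSeries.constantCoeff h
    simp only [ePS, map_add, map_mul, PowerSeries.constantCoeff_C,
      PowerSeries.constantCoeff_X, zero_mul, add_zero] at h1
    have hc : c = c' := by
      have : (c : ℚ) = c' := by linarith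
      exact_mod_cast this
    subst hc
    simp only [ePS] at h
    have h2 := add_left_cancel h
    have h3 := mul_left_cancel₀ PowerSeries.X_ne_zero h2
    rw [ePS_inj v v' h3]

/-- the Laurent series of a word -/
noncomputable def enc (u : List ℕ) : K := HahnSeries.ofPowerSeries ℤ ℚ (ePS u)

lemma enc_inj {u v : List ℕ} (h : enc u = enc v) : u = v :=
  ePS_inj u v (HahnSeries.ofPowerSeries_injective h)

lemma enc_nil : enc [] = 0 := by simp [enc, ePS]

lemma enc_append : ∀ u v : List ℕ, enc (u ++ v) = enc u + T u.length * enc v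
  | [], v => by simp [enc_nil, T_zero]
  | c :: u, v => by
    have ih := enc_append u v
    have hX : HahnSeries.ofPowerSeries ℤ ℚ PowerSeries.X = T 1 := by
      rw [HahnSeries.ofPowerSeries_X]; rfl
    have hc : ∀ z : List ℕ, enc (c :: z) =
        HahnSeries.ofPowerSeries ℤ ℚ (PowerSeries.C ((c : ℚ) + 1)) + T 1 * enc z := by
      intro z
      simp only [enc, ePS, map_add, map_mul, hX]
    rw [List.cons_append, hc, ih, hc, List.length_cons, Nat.cast_add, Nat.cast_one, add_comm
      ((u.length : ℤ)) 1, T_add]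
    ring

lemma enc_pow (u : List ℕ) (k : ℕ) : enc ((List.replicate k u).flatten) * (1 - T u.length)
    = enc u * (1 - T ((k : ℤ) * u.length)) := by
  induction k with
  | zero => simp [enc_nil, T_zero]
  | succ k ih =>
    rw [List.replicate_succ, List.flatten_cons, enc_append, add_mul, mul_assoc, ih]
    have : ((k + 1 : ℕ) : ℤ) * (u.length : ℤ) = u.length + k * u.length := by
      push_cast; ring
    rw [this, T_add]
    ring

lemma flatMap_replicate {A B : Type*} (φ : A → List B) (k : ℕ) (u : List A) :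
    ((List.replicate k u).flatten).flatMap φ = (List.replicate k (u.flatMap φ)).flatten := by
  induction k with
  | zero => simp
  | succ k ih =>
    rw [List.replicate_succ, List.flatten_cons, List.flatMap_append, ih, List.replicate_succ,
      List.flatten_cons]

end encoding

/-- shapes of power expressions with positive exponents -/
inductive Sh (n : ℕ) : Type
  | letter (a : Fin n) : Sh n
  | app (s t : Sh n) : Sh n
  | pow (s : Sh n) : Sh n

/-- the exponents of a shape -/
def Ex {n : ℕ} : Sh n → Type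
  | .letter _ => Unit
  | .app s t => Ex s × Ex t
  | .pow s => Ex s × ℕ

/-- the value of a shape at given exponents (an exponent `k` stands for the power `k + 1`) -/
def val {n : ℕ} : (τ : Sh n) → Ex τ → List (Fin n)
  | .letter a, _ => [a]
  | .app s t, x => val s x.1 ++ val t x.2
  | .pow s, x => (List.replicate (x.2 + 1) (val s x.1)).flatten

lemma length_flatMap {n : ℕ} (φ : Fin n → List ℕ) (y : List (Fin n)) :
    (((y.flatMap φ).length : ℕ) : ℤ) = ∑ a, (y.count a : ℤ) * ((φ a).length : ℤ) := by
  induction y with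
  | nil => simp
  | cons b y ih =>
    rw [List.flatMap_cons, List.length_append, Nat.cast_add, ih]
    have : ∀ a, (((b :: y).count a : ℕ) : ℤ) * ((φ a).length : ℤ)
        = (if a = b then ((φ a).length : ℤ) else 0) + (y.count a : ℤ) * ((φ a).length : ℤ) := by
      intro a
      rw [List.count_cons]
      by_cases h : a = b
      · subst h; simp; ring
      · have h' : (b == a) = false := by
          rw [beq_eq_false_iff_ne]; exact fun h2 => h h2.symm
        simp [h, h']
    simp only [this, Finset.sum_add_distrib]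
    simp

section main

variable {ι : Type} [Fintype ι] [DecidableEq ι] {W : Type} {Q : W → Prop} {q : W → ι → ℤ} {n : ℕ}
  {φ : W → Fin n → List ℕ} {j : Fin n → ι} {Z : Finset (Fin n)}

lemma ES_len {X : Type} (hq : ∀ w a, Q w → ((φ w a).length : ℤ) = q w (j a)) (m : X → ℤ)
    (y : X → List (Fin n)) :
    ES Q q (fun x w => T (m x * (((y x).flatMap (φ w)).length : ℕ))) := by
  refine (ES.mon (Q := Q) (q := q)
    (fun x l => m x * ∑ a, if j a = l then ((y x).count a : ℤ) else 0)).congr ?_
  intro x w hw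
  congr 1
  rw [length_flatMap]
  simp only [mul_assoc, Finset.sum_mul, ← Finset.mul_sum]
  congr 1
  rw [Finset.sum_comm]
  refine Finset.sum_congr rfl fun a _ => ?_
  simp [hq w a hw]

lemma dich (hZ : ∀ w, Q w → ∀ a, φ w a = [] ↔ a ∈ Z) (τ : Sh n) :
    (∀ x w, Q w → (val τ x).flatMap (φ w) = []) ∨
    (∀ x w, Q w → (val τ x).flatMap (φ w) ≠ []) := by
  induction τ with
  | letter a =>
    by_cases ha : a ∈ Z
    · left
      intro x w hw
      simp [val, (hZ w hw a).mpr ha]
    · right
      intro x w hw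
      have := (hZ w hw a).not.mpr ha
      simpa [val] using this
  | app s t ihs iht =>
    rcases ihs with hs | hs
    · rcases iht with ht | ht
      · left
        intro x w hw
        simp only [val, List.flatMap_append, hs _ w hw, ht _ w hw, List.append_nil]
      · right
        intro x w hw h
        simp only [val, List.flatMap_append] at h
        exact ht _ w hw (List.append_eq_nil_iff.mp h).2
    · right
      intro x w hw h
      simp only [val, List.flatMap_append] at h
      exact hs _ w hw (List.append_eq_nil_iff.mp h).1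
  | pow s ih =>
    rcases ih with hs | hs
    · left
      intro x w hw
      simp only [val, flatMap_replicate, hs _ w hw]
      simp
    · right
      intro x w hw h
      simp only [val] at h
      rw [flatMap_replicate, List.replicate_succ, List.flatten_cons] at h
      exact hs _ w hw (List.append_eq_nil_iff.mp h).1

/-- the Laurent series of the images of the words `v x` are fractions of exponential sums -/
def Frac {X : Type} (Q : W → Prop) (q : W → ι → ℤ) (φ : W → Fin n → List ℕ)
    (v : X → List (Fin n)) : Prop :=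
  ∃ N D : X → W → K, ES Q q N ∧ ES Q q D ∧ ∀ x w, Q w → D x w ≠ 0 ∧
      enc ((v x).flatMap (φ w)) * D x w = N x w

omit [DecidableEq ι] in
lemma Frac.letter (a : Fin n) : Frac (X := Unit) Q q φ (fun _ => [a]) := by
  refine ⟨fun _ w => enc (φ w a), fun _ _ => 1, ES.const _, ES.const _, ?_⟩
  intro x w _
  simp

lemma Frac.app {X Y : Type} {v1 : X → List (Fin n)} {v2 : Y → List (Fin n)}
    (hq : ∀ w a, Q w → ((φ w a).length : ℤ) = q w (j a))
    (hf1 : Frac Q q φ v1) (hf2 : Frac Q q φ v2) :
    Frac Q q φ (fun x : X × Y => v1 x.1 ++ v2 x.2) := by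
  obtain ⟨N1, D1, hN1, hD1, h1⟩ := hf1
  obtain ⟨N2, D2, hN2, hD2, h2⟩ := hf2
  have hl : ES Q q (fun (x : X × Y) w =>
      T (1 * (((v1 x.1).flatMap (φ w)).length : ℕ))) :=
    ES_len hq (fun _ => 1) (fun x : X × Y => v1 x.1)
  have a1 : ES Q q (fun (x : X × Y) w => N1 x.1 w) := hN1.comp (fun x : X × Y => x.1)
  have a2 : ES Q q (fun (x : X × Y) w => D1 x.1 w) := hD1.comp (fun x : X × Y => x.1)
  have a3 : ES Q q (fun (x : X × Y) w => N2 x.2 w) := hN2.comp (fun x : X × Y => x.2)
  have a4 : ES Q q (fun (x : X × Y) w => D2 x.2 w) := hD2.comp (fun x : X × Y => x.2)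
  refine ⟨_, _, (a1.mul a4).add (hl.mul (a3.mul a2)), a2.mul a4, ?_⟩
  intro x w hw
  obtain ⟨h1a, h1b⟩ := h1 x.1 w hw
  obtain ⟨h2a, h2b⟩ := h2 x.2 w hw
  refine ⟨mul_ne_zero h1a h2a, ?_⟩
  simp only [List.flatMap_append, enc_append, ← h1b, ← h2b, one_mul]
  ring

lemma Frac.pow {X : Type} {v : X → List (Fin n)}
    (hq : ∀ w a, Q w → ((φ w a).length : ℤ) = q w (j a))
    (hd : (∀ x w, Q w → (v x).flatMap (φ w) = []) ∨ (∀ x w, Q w → (v x).flatMap (φ w) ≠ []))
    (hf : Frac Q q φ v) :
    Frac Q q φ (fun x : X × ℕ => (List.replicate (x.2 + 1) (v x.1)).flatten) := by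
  obtain ⟨N1, D1, hN1, hD1, h1⟩ := hf
  rcases hd with hs | hs
  · refine ⟨fun _ _ => 0, fun _ _ => 1, ES.const _, ES.const _, ?_⟩
    intro x w hw
    refine ⟨one_ne_zero, ?_⟩
    simp only [flatMap_replicate, hs _ w hw]
    simp [enc_nil]
  · have hl : ES Q q (fun (x : X × ℕ) w =>
        T (1 * (((v x.1).flatMap (φ w)).length : ℕ))) :=
      ES_len hq (fun _ => 1) (fun x : X × ℕ => v x.1)
    have hl2 : ES Q q (fun (x : X × ℕ) w =>
        T (((x.2 + 1 : ℕ) : ℤ) * (((v x.1).flatMap (φ w)).length : ℕ))) :=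
      ES_len hq (fun x : X × ℕ => ((x.2 + 1 : ℕ) : ℤ)) (fun x : X × ℕ => v x.1)
    have hone : ES Q q (fun (_ : X × ℕ) (_ : W) => (1 : K)) := ES.const _
    have a1 : ES Q q (fun (x : X × ℕ) w => N1 x.1 w) := hN1.comp (fun x : X × ℕ => x.1)
    have a2 : ES Q q (fun (x : X × ℕ) w => D1 x.1 w) := hD1.comp (fun x : X × ℕ => x.1)
    refine ⟨_, _, a1.mul (hone.sub hl2), a2.mul (hone.sub hl), ?_⟩
    intro x w hw
    obtain ⟨h1a, h1b⟩ := h1 x.1 w hw
    have hpos : 0 < ((v x.1).flatMap (φ w)).length :=
      List.length_pos_iff.mpr (hs x.1 w hw)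
    refine ⟨mul_ne_zero h1a ?_, ?_⟩
    · intro h0
      have h00 : T (1 * (((v x.1).flatMap (φ w)).length : ℕ)) = T 0 := by
        rw [T_zero]; exact (sub_eq_zero.mp h0).symm
      have := T_inj h00
      omega
    · simp only [flatMap_replicate, ← h1b, one_mul]
      have := enc_pow ((v x.1).flatMap (φ w)) (x.2 + 1)
      linear_combination D1 x.1 w * this

lemma frac (hq : ∀ w a, Q w → ((φ w a).length : ℤ) = q w (j a))
    (hZ : ∀ w, Q w → ∀ a, φ w a = [] ↔ a ∈ Z) (τ : Sh n) :
    Frac Q q φ (val τ) := by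
  induction τ with
  | letter a => exact Frac.letter a
  | app s t ihs iht => exact Frac.app hq ihs iht
  | pow s ih => exact Frac.pow hq (dich hZ s) ih

end main

end H17WT
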